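import Pool.Agent.X240.BM.Final

/-!
# The Breuil-Mezard conjecture as a system of difference equations in the Hodge type

`K` is a finite extension of `ℚ_p` with residue degree `f` and ramification index `e`, residue field
`k`, and `n = N + 1`. The embeddings of `K` are numbered by the pairs `(a, b)`, `a < f`, `b < e`, such
that the residue embedding of `(a, b)` is the `p ^ a`-th power of that of `(0, 0)`. A Hodge type `λ`
is replaced by `ξ = λ + (n - 1, …, 1, 0)`, a family of strictly decreasing vectors.

`mult τ ξ` stands for the Hilbert-Samuel multiplicity of the special fibre of the potentially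
crystalline lifting ring of a fixed residual representation, of Hodge type `λ` and inertial type `τ`;
the theorem is true for arbitrary numbers `mult τ ξ`. They are extended to all the families `ξ` of
integral vectors as an alternating function `E τ ξ` (`altExt`).

Theorem. There are non-negative integers `μ_V`, `V` the Serre weights, with
`mult τ ξ = ∑ n_{λ, τ}(V) μ_V` for all `λ` and `τ` (Q1 for the residual representation) if and only
if

(a) for all `τ`, all Hodge types `λ`, all embeddings `σ` and all `1 ≤ i ≤ n`

  `∑_{|S| = i} E τ (ξ + p ε_S at σ) = ∑_{|S| = i} E τ (ξ + ε_S at σ')`, if `σ = (a, 0)`,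
  `∑_{|S| = i} E τ (ξ + ε_S at σ) = ∑_{|S| = i} E τ (ξ + ε_S at σ')`, if `σ = (a, b)`, `b ≠ 0`,

with `σ' = (a + 1, 0)` in the first and `σ' = (a, 0)` in the second case, `S` running through the
subsets of `{1, …, n}` and `ε_S` its indicator; so with the shift operators `T` of the coordinates
these are the equations `e_i (T_σ ^ p) = e_i (T_σ')`, `e_i (T_σ) = e_i (T_σ')` with the elementary
symmetric functions;

(b) for each `τ` the finitely many identities which express `mult τ ξ` for the restricted `ξ` by the
`mult 1 ξ` for the restricted `ξ`, as the classes of the representations are expressed in the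
Grothendieck group;

(c) the finitely many numbers `μ_V` computed from the `mult 1 ξ` for the restricted `ξ` are `≥ 0`.

(a) and (b) alone are equivalent to the existence of integers `μ_V` (which are then unique).

The known facts on the Grothendieck ring of `GL_n(k)` which are used are collected in `WeightRing`:
the classes of the Serre weights are a basis; Brauer's formula for the product of the class of an
algebraic representation and of a (Frobenius twist of a) fundamental representation; the Frobenius
twist permutes the embeddings; the classes of algebraic representations generate; and the number of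
the Serre weights (Steinberg). That the restricted classes are a basis is proved here: an alternating
solution of the equations which is zero at the restricted weights is zero (induction on
`∑ |ξ σ i - ξ σ j|`).
-/

set_option autoImplicit false

namespace Pool.Agent.Results.MP_7cb106_nt.DifferenceEquations

open Pool.Agent.X240.BM

/-- The conjecture for one residual representation is equivalent to the difference equations (a),
the identities (b) at the restricted weights and the positivity (c); existence of integers is
equivalent to (a) and (b). -/
theorem result (p f e N : ℕ) [NeZero f] [NeZero e] (hp : p.Prime)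
    (W : Type) [Fintype W] [Nonempty W] (R : Type) [CommRing R]
    (D : WeightRing (Fin f × Fin e) W N nextEmb (step p) (0, 0) ((p : ℤ) ^ f - 1) R)
    (T : Type) (θ : T → R) (t₀ : T) (ht : θ t₀ = 1)
    (mult : T → Wt (Fin f × Fin e) (N + 1) → ℕ) :
    ((∃ μ : W → ℕ, HasMultiplicities D θ mult μ) ↔
      (∀ τ, HodgeEq nextEmb (step p) fun ξ => (mult τ ξ : ℤ)) ∧
        RestrictedIdentities D θ (fun τ ξ => (mult τ ξ : ℤ)) t₀ ∧ Positive D (mult t₀)) ∧
    ((∃! c : W → ℤ, HasCycles D θ (fun τ ξ => (mult τ ξ : ℤ)) c) ↔
      (∀ τ, HodgeEq nextEmb (step p) fun ξ => (mult τ ξ : ℤ)) ∧
        RestrictedIdentities D θ (fun τ ξ => (mult τ ξ : ℤ)) t₀) :=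
  ⟨multiplicities_iff (shape_field p f e hp.two_le) D θ t₀ ht mult,
    types_iff (shape_field p f e hp.two_le) D θ t₀ ht _⟩

end Pool.Agent.Results.MP_7cb106_nt.DifferenceEquations
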