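import Pool.Agent.X240.BM.Types3

/-!
# The generalised Breuil-Mezard conjecture: explicit relations for the types

`K` is a finite extension of `ℚ_p` with residue degree `f` and ramification index `e`, residue field
`k` with `q = p ^ f` elements, `n = N + 1`. The embeddings of `K` are numbered by the pairs `(a, b)`,
`a < f`, `b < e`, as in `DifferenceEquations`. A Hodge type `λ` is replaced by the Hodge-Tate weights
`ξ σ = λ σ + (n - 1, …, 0)`.

`mult₀ ξ` stands for the Hilbert-Samuel multiplicity of the special fibre of the crystalline lifting
ring of a fixed residual representation `r`, and `mult τ ξ` for that of the potentially crystalline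
lifting ring of type `τ`; the theorem is true for arbitrary numbers. They are extended to all the
families `ξ` of integral vectors as alternating functions `E` and `E_τ` (`altExt`). For a vector `v`
let `ξ + v` be the family with `v` added at the embedding `(0, 0)`, and let
`E[v](ξ) = ∑_w sgn w E(ξ + w v)`, the sum over the permutations of the coordinates (`altSum`).

Theorem, first part. Let `τ` range over types which are sums of characters of level `f`,
`τ = ω ^ (χ 0) ⊕ … ⊕ ω ^ (χ N)`, equal characters being adjacent. There are non-negative integers
`μ_V(r)`, `V` the Serre weights, with the property of the conjecture for the crystalline rings and for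
the rings of these types (all Hodge types) if and only if

(a) `E` satisfies the difference equations (`HodgeEq`) of `DifferenceEquations`;

(b) for all these `τ` and all `ξ`, with `ρ = (n - 1, …, 0)`,

  `E_τ[ρ](ξ) = ∑_S (-1) ^ |S| E[χ + ∑_{(i, j) ∉ S} ε_i + q ∑_{(i, j) ∈ S} ε_j](ξ)`,

where `S` ranges over the sets of pairs `i < j` of different characters, and the inner sums are over
the pairs `i < j` which are not in `S` or are in `S`;

(c) the solution of the equations for the Serre weights is non-negative (`Positive`, finitely many
conditions on `mult₀` at restricted weights).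

For example, the multiplicity for `τ` and the minimal Hodge type is the alternating sum of the
`E(χ + ∑_{(i, j) ∉ S} ε_i + q ∑_{(i, j) ∈ S} ε_j)` (put at the embedding `(0, 0)`).

Second part. The same for all types: if the class of the reduction of `σ(τ)` is the combination
`∑ k [v]` of the classes `[v]` of the algebraic representations of the embedding `(0, 0)` with the
parameters `v ≥ 0` (each class is such a combination), then the whole conjecture for `r` is
equivalent to (a), (c) and `E_τ[ρ](ξ) = ∑ k E[v](ξ)` for all nontrivial `τ` and all `ξ`. So no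
identities with the numbers `n_{λ, τ}(V)` remain.

The known facts on the Grothendieck ring of `GL_n(k)` which are used are collected in `WeightRing` and
`hone`; the formula `psClass` for the class of a parabolically induced representation of `GL_n(k)`
follows from the Koszul resolution of the rational points of the flag variety.
-/

set_option autoImplicit false

namespace Pool.Agent.Results.MP_7cb106_nt.TypeRelations

open Pool.Agent.X240.BM

/-- First part: crystalline rings and rings of tame types. Second part: all types. -/
theorem result (p f e N : ℕ) [NeZero f] [NeZero e] (hp : p.Prime)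
    (W : Type) [Fintype W] [Nonempty W] (R : Type) [CommRing R]
    (D : WeightRing (Fin f × Fin e) W N nextEmb (step p) (0, 0) ((p : ℤ) ^ f - 1) R)
    (hone : D.cls (fun _ => rho N) = 1) :
    (∀ (P : Type) (χ : P → Fin (N + 1) → ℕ) (mult₀ : Wt (Fin f × Fin e) (N + 1) → ℕ)
      (mult : P → Wt (Fin f × Fin e) (N + 1) → ℕ),
      (∃ μ : W → ℕ, HasCrystallineCycles D (fun ξ => (mult₀ ξ : ℤ)) (fun V => (μ V : ℤ)) ∧
        HasMultiplicities D (fun x => psClass D (p ^ f) (χ x)) mult μ) ↔
      HodgeEq nextEmb (step p) (fun ξ => (mult₀ ξ : ℤ)) ∧
        (∀ x, TameRel (0, 0) (p ^ f) (χ x) (altExt fun ξ => (mult₀ ξ : ℤ))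
          (altExt fun ξ => (mult x ξ : ℤ))) ∧ Positive D mult₀) ∧
    (∀ (T : Type) (θ : T → R) (t₀ : T) (a : T → (Fin (N + 1) → ℤ) →₀ ℤ), θ t₀ = 1 →
      (∀ τ, ∀ v ∈ (a τ).support, ∀ j, 0 ≤ v j) → (∀ τ, τ ≠ t₀ → θ τ = combClass D (a τ)) →
      ∀ mult : T → Wt (Fin f × Fin e) (N + 1) → ℕ,
      (∃ μ : W → ℕ, HasMultiplicities D θ mult μ) ↔
      HodgeEq nextEmb (step p) (fun ξ => (mult t₀ ξ : ℤ)) ∧
        (∀ τ, τ ≠ t₀ → TypeRel (0, 0) (a τ) (altExt fun ξ => (mult t₀ ξ : ℤ))
          (altExt fun ξ => (mult τ ξ : ℤ))) ∧ Positive D (mult t₀)) := by
  have hS := shape_field p f e hp.two_le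
  exact ⟨fun P χ mult₀ mult => tame_mult_iff hS D hone (p ^ f) χ mult₀ mult,
    fun T θ t₀ a ht ha hθ mult => mult_rel_iff hS D hone θ t₀ ht a ha hθ mult⟩

end Pool.Agent.Results.MP_7cb106_nt.TypeRelations
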